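import Pool.Agent.W42.RG.Defs

set_option autoImplicit false
set_option linter.all false

namespace Pool.Agent.W356.LX

open Polynomial

section

variable {R : Type} [Ring R] [Algebra ℝ R]

theorem comm_pow (a c x : R) (hc : c = a * x - x * a) (hac : a * c = c * a) (n : ℕ) :
    a ^ n * x - x * a ^ n = (n : R) * (a ^ (n - 1) * c) := by
  induction n with
  | zero => simp
  | succ n ih =>
    have h1 : a ^ (n + 1) * x - x * a ^ (n + 1) =
        a * (a ^ n * x - x * a ^ n) + (a * x - x * a) * a ^ n := by
      rw [pow_succ' a n]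
      noncomm_ring
    have hcn : c * a ^ n = a ^ n * c := ((show Commute a c from hac).pow_left n).eq.symm
    rw [h1, ih, ← hc, hcn, Nat.add_sub_cancel]
    rcases n with _ | n
    · simp
    · have h2 : a * (((n + 1 : ℕ) : R) * (a ^ (n + 1 - 1) * c)) =
          ((n + 1 : ℕ) : R) * (a ^ (n + 1) * c) := by
        rw [Nat.add_sub_cancel, ← mul_assoc, (Nat.cast_commute (n + 1) a).eq.symm, mul_assoc,
          ← mul_assoc a, ← pow_succ']
      rw [h2]
      push_cast
      noncomm_ring

theorem comm_aeval (a c x : R) (hc : c = a * x - x * a) (hac : a * c = c * a) (g : ℝ[X]) :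
    aeval a g * x - x * aeval a g = aeval a (derivative g) * c := by
  induction g using Polynomial.induction_on' with
  | add p q hp hq =>
    rw [map_add, derivative_add, map_add, add_mul, mul_add, add_mul, ← hp, ← hq]
    abel
  | monomial n r =>
    rw [derivative_monomial, aeval_monomial, aeval_monomial]
    have h := comm_pow a c x hc hac n
    have h2 : algebraMap ℝ R (r * n) = algebraMap ℝ R r * (n : R) := by
      rw [map_mul, map_natCast]
    rw [h2, mul_assoc, mul_assoc, mul_assoc, ← h, mul_sub, ← mul_assoc x,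
      (Algebra.commutes r x).symm, mul_assoc]

theorem aeval_comm (a c : R) (hac : a * c = c * a) (g : ℝ[X]) (e : ℕ) :
    c ^ e * aeval a g = aeval a g * c ^ e := by
  have h1 : Commute (aeval a g) c := by
    induction g using Polynomial.induction_on' with
    | add p q hp hq =>
      rw [map_add]
      exact hp.add_left hq
    | monomial n r =>
      rw [aeval_monomial]
      exact (Algebra.commute_algebraMap_left r c).mul_left ((show Commute a c from hac).pow_left n)
  exact ((h1.pow_right e).eq).symm

theorem claim (a c x : R) (hc : c = a * x - x * a) (hac : a * c = c * a) (p : ℝ[X])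
    (hp : aeval a p = 0) (j : ℕ) : aeval a (derivative^[j] p) * c ^ (2 ^ j - 1) = 0 := by
  induction j with
  | zero => simp [hp]
  | succ j ih =>
    obtain ⟨g, hg⟩ : ∃ g, g = derivative^[j] p := ⟨_, rfl⟩
    obtain ⟨e, he⟩ : ∃ e, e = 2 ^ j - 1 := ⟨_, rfl⟩
    rw [← hg, ← he] at ih
    have hj : 1 ≤ 2 ^ j := Nat.one_le_two_pow
    have he2 : 2 ^ (j + 1) - 1 = e + 1 + e := by
      rw [pow_succ]; omega
    rw [Function.iterate_succ_apply', ← hg, he2]
    have h1 := comm_aeval a c x hc hac g
    have h2 : c ^ e * (aeval a g * x - x * aeval a g) * c ^ e = 0 := by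
      have h3 : c ^ e * aeval a g = 0 := by rw [aeval_comm a c hac]; exact ih
      rw [mul_sub, ← mul_assoc, h3, zero_mul, zero_sub, neg_mul, mul_assoc, mul_assoc, ih, mul_zero,
        mul_zero, neg_zero]
    rw [h1, ← mul_assoc, aeval_comm a c hac, mul_assoc, mul_assoc] at h2
    rw [← h2]
    congr 1
    rw [pow_add, pow_succ, mul_assoc]

theorem iter_deriv (p : ℝ[X]) (hp : p.Monic) :
    derivative^[p.natDegree] p = C ((p.natDegree.factorial : ℕ) : ℝ) := by
  have h1 : (derivative^[p.natDegree] p).natDegree ≤ 0 := by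
    have := Polynomial.natDegree_iterate_derivative p p.natDegree
    simpa using this
  rw [Polynomial.eq_C_of_natDegree_le_zero h1]
  congr 1
  rw [Polynomial.coeff_iterate_derivative]
  rw [zero_add, hp.coeff_natDegree, Nat.descFactorial_self]
  simp

end

theorem t_JAC : Pool.Agent.W42.RG.S_JAC := by
  intro V _ _ _ a c x hc hac
  have hint : IsIntegral ℝ a := Algebra.IsIntegral.isIntegral a
  have h := claim a c x hc hac (minpoly ℝ a) (minpoly.aeval ℝ a) (minpoly ℝ a).natDegree
  rw [iter_deriv _ (minpoly.monic hint), aeval_C] at h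
  refine ⟨2 ^ (minpoly ℝ a).natDegree - 1, ?_⟩
  rw [← Algebra.smul_def] at h
  rcases smul_eq_zero.mp h with h1 | h1
  · exfalso
    have : (((minpoly ℝ a).natDegree.factorial : ℕ) : ℝ) ≠ 0 := by
      exact_mod_cast Nat.factorial_ne_zero _
    exact this h1
  · exact h1

end Pool.Agent.W356.LX
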