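import Pool.Agent.W42.RG.Defs

set_option autoImplicit false
set_option linter.all false

namespace Pool.Agent.W356.LX

open Finset Pool.Agent.W42.RG

/-- the binomial polynomials -/
noncomputable def bp : ℕ → ℝ → ℝ
  | 0, _ => 1
  | l + 1, x => bp l x * (x - l) / (l + 1)

theorem bp_zero (x : ℝ) : bp 0 x = 1 := rfl

theorem bp_succ (l : ℕ) (x : ℝ) : bp (l + 1) x = bp l x * (x - l) / (l + 1) := rfl

theorem bp_at_zero (l : ℕ) : bp (l + 1) 0 = 0 := by
  induction l with
  | zero => simp [bp_succ]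
  | succ l ih => rw [bp_succ, ih]; simp

theorem bp_shift (l : ℕ) (x : ℝ) : bp l (x + 1) * (x + 1 - l) = (x + 1) * bp l x := by
  induction l with
  | zero => simp [bp_zero]
  | succ l ih =>
    have hl : (l : ℝ) + 1 ≠ 0 := by positivity
    rw [bp_succ, bp_succ]
    push_cast
    have e : bp l (x + 1) * (x + 1 - l) / (l + 1) * (x + 1 - (l + 1)) =
        (bp l (x + 1) * (x + 1 - l)) * (x - l) / (l + 1) := by
      field_simp
      ring
    rw [e, ih]
    ring

theorem bp_pascal (l : ℕ) (x : ℝ) : bp (l + 1) (x + 1) = bp (l + 1) x + bp l x := by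
  have hl : (l : ℝ) + 1 ≠ 0 := by positivity
  rw [bp_succ, bp_succ, bp_shift]
  field_simp
  ring

theorem bp_bound (l : ℕ) (x : ℝ) : |bp l x| ≤ (1 + |x|) ^ l := by
  induction l with
  | zero => simp [bp_zero]
  | succ l ih =>
    have hl : (0 : ℝ) < (l : ℝ) + 1 := by positivity
    have hx := abs_nonneg x
    have hl0 : (0 : ℝ) ≤ l := Nat.cast_nonneg l
    rw [bp_succ, abs_div, abs_mul, abs_of_pos hl, div_le_iff₀ hl, pow_succ]
    have h1 : |x - l| ≤ (1 + |x|) * (l + 1) := by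
      have h2 := abs_sub x (l : ℝ)
      rw [abs_of_nonneg hl0] at h2
      nlinarith [mul_nonneg hx hl0]
    calc |bp l x| * |x - l| ≤ (1 + |x|) ^ l * ((1 + |x|) * (l + 1)) :=
          mul_le_mul ih h1 (abs_nonneg _) (by positivity)
      _ = _ := by ring

theorem bp_main (d : ℕ) : ∃ C : ℝ, 0 ≤ C ∧
    ∀ x : ℝ, |bp (d + 1) x - x ^ (d + 1) / (d + 1).factorial| ≤ C * (1 + |x|) ^ d := by
  induction d with
  | zero =>
    refine ⟨0, le_rfl, fun x => ?_⟩
    rw [bp_succ, bp_zero]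
    simp
  | succ d ih =>
    obtain ⟨C, hC, h⟩ := ih
    refine ⟨C + (d + 1), by positivity, fun x => ?_⟩
    have hx := abs_nonneg x
    have hd : (0 : ℝ) < ((d + 1 : ℕ) : ℝ) + 1 := by positivity
    have hf : ((d + 1).factorial : ℝ) ≠ 0 := by exact_mod_cast Nat.factorial_ne_zero _
    have e : bp (d + 1 + 1) x - x ^ (d + 1 + 1) / (d + 1 + 1).factorial =
        (x * (bp (d + 1) x - x ^ (d + 1) / (d + 1).factorial) - ((d + 1 : ℕ) : ℝ) * bp (d + 1) x) /
          (((d + 1 : ℕ) : ℝ) + 1) := by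
      rw [bp_succ (d + 1), Nat.factorial_succ (d + 1)]
      have hd' := hd.ne'
      push_cast at hd' ⊢
      field_simp
      ring
    rw [e, abs_div, abs_of_pos hd, div_le_iff₀ hd]
    have h1 : |x * (bp (d + 1) x - x ^ (d + 1) / (d + 1).factorial)| ≤ C * (1 + |x|) ^ (d + 1) := by
      rw [abs_mul]
      calc |x| * |bp (d + 1) x - x ^ (d + 1) / (d + 1).factorial|
          ≤ (1 + |x|) * (C * (1 + |x|) ^ d) :=
            mul_le_mul (by linarith) (h x) (abs_nonneg _) (by positivity)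
        _ = _ := by ring
    have h2 : |((d + 1 : ℕ) : ℝ) * bp (d + 1) x| ≤ ((d : ℝ) + 1) * (1 + |x|) ^ (d + 1) := by
      rw [abs_mul, abs_of_nonneg (Nat.cast_nonneg _)]
      push_cast
      exact mul_le_mul_of_nonneg_left (bp_bound _ _) (by positivity)
    have h3 := abs_sub (x * (bp (d + 1) x - x ^ (d + 1) / (d + 1).factorial))
      (((d + 1 : ℕ) : ℝ) * bp (d + 1) x)
    have h4 : 0 ≤ (C + ((d : ℝ) + 1)) * (1 + |x|) ^ (d + 1) := by positivity
    have h5 : (C + ((d : ℝ) + 1)) * (1 + |x|) ^ (d + 1) ≤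
        (C + ((d : ℝ) + 1)) * (1 + |x|) ^ (d + 1) * (((d + 1 : ℕ) : ℝ) + 1) := by
      apply le_mul_of_one_le_right h4
      push_cast
      have : (0 : ℝ) ≤ d := Nat.cast_nonneg d
      linarith
    linarith

section

variable {V : Type} [AddCommGroup V] [Module ℝ V] (A : V ≃ₗ[ℝ] V)

/-- the partial sums -/
noncomputable def SS (Y : V) (d : ℕ) (x : ℝ) : V := ∑ l ∈ range (d + 1), bp l x • ((nA A) ^ l) Y

theorem nA_apply (Y : V) : (nA A) Y = A Y - Y := rfl

theorem SS_zero (Y : V) (d : ℕ) : SS A Y d 0 = Y := by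
  unfold SS
  rw [sum_range_succ']
  have : ∑ l ∈ range d, bp (l + 1) 0 • ((nA A) ^ (l + 1)) Y = 0 :=
    sum_eq_zero (fun l _ => by rw [bp_at_zero, zero_smul])
  rw [this, zero_add, bp_zero]
  simp

theorem SS_step (Y : V) (d : ℕ) (x : ℝ) :
    A (SS A Y d x) - SS A Y d (x + 1) = bp d x • ((nA A) ^ (d + 1)) Y := by
  have h1 : A (SS A Y d x) = SS A Y d x + ∑ l ∈ range (d + 1), bp l x • ((nA A) ^ (l + 1)) Y := by
    unfold SS
    rw [map_sum, ← sum_add_distrib]
    refine sum_congr rfl (fun l _ => ?_)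
    rw [map_smul, ← smul_add, pow_succ']
    congr 1
    rw [Module.End.mul_apply, nA_apply]
    abel
  have h2 : SS A Y d (x + 1) = SS A Y d x + ∑ l ∈ range d, bp l x • ((nA A) ^ (l + 1)) Y := by
    unfold SS
    rw [sum_range_succ', sum_range_succ' (fun l => bp l x • ((nA A) ^ l) Y)]
    simp only [bp_pascal, add_smul, sum_add_distrib, bp_zero]
    abel
  rw [h1, h2, sum_range_succ]
  abel

end

theorem t_POLY : S_POLY := by
  intro V _ _ A K hK Y d hd hY
  obtain ⟨e, rfl⟩ : ∃ e, d = e + 1 := ⟨d - 1, by omega⟩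
  obtain ⟨C, hC, hmain⟩ := bp_main e
  refine ⟨fun l n => bp l (n : ℝ), C + 1, ?_, ?_, ?_⟩
  · intro l hl n
    have h0 : (1 : ℝ) ≤ 1 + |(n : ℝ)| := by
      have := abs_nonneg (n : ℝ)
      linarith
    rw [Nat.add_sub_cancel]
    calc |bp l (n : ℝ)| ≤ (1 + |(n : ℝ)|) ^ l := bp_bound l _
      _ ≤ (1 + |(n : ℝ)|) ^ e := pow_le_pow_right₀ h0 (by omega)
      _ ≤ (C + 1) * (1 + |(n : ℝ)|) ^ e := le_mul_of_one_le_left (by positivity) (by linarith)
  · intro n
    rw [Nat.add_sub_cancel]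
    refine (hmain n).trans ?_
    exact mul_le_mul_of_nonneg_right (by linarith) (by positivity)
  · intro n
    show (A ^ n) Y - SS A Y (e + 1) (n : ℝ) ∈ K
    have hstep : ∀ m : ℤ, A ((A ^ m) Y - SS A Y (e + 1) (m : ℝ)) -
        ((A ^ (m + 1)) Y - SS A Y (e + 1) ((m + 1 : ℤ) : ℝ)) ∈ K := by
      intro m
      have h1 : (A ^ (m + 1)) Y = A ((A ^ m) Y) := by
        rw [add_comm, zpow_add, zpow_one]
        rfl
      have h2 := SS_step A Y (e + 1) (m : ℝ)
      have h3 : A ((A ^ m) Y - SS A Y (e + 1) (m : ℝ)) -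
          ((A ^ (m + 1)) Y - SS A Y (e + 1) ((m + 1 : ℤ) : ℝ)) =
          -(bp (e + 1) (m : ℝ) • ((nA A) ^ (e + 1 + 1)) Y) := by
        rw [← h2, map_sub, h1]
        push_cast
        abel
      rw [h3]
      exact K.neg_mem (K.smul_mem _ hY)
    induction n using Int.induction_on with
    | zero =>
      simp only [zpow_zero, Int.cast_zero, SS_zero]
      simp
    | succ i ih =>
      have h := hstep (i : ℤ)
      have h2 := (hK _).mpr ih
      have h3 := K.sub_mem h2 h
      rw [sub_sub_cancel] at h3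
      exact h3
    | pred i ih =>
      have h := hstep (-(i : ℤ) - 1)
      rw [sub_add_cancel] at h
      have h3 := K.add_mem h ih
      rw [sub_add_cancel] at h3
      exact (hK _).mp h3

end Pool.Agent.W356.LX
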