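import Pool.Agent.W42.RG.Defs

set_option autoImplicit false
set_option linter.all false

namespace Pool.Agent.W356.LX

open Finset Filter Topology MeasureTheory Pool.Agent.W42.RN Pool.Agent.W42.RL Pool.Agent.W42.RG

theorem iter_same {X : Type} [MeasurableSpace X] {𝔤 : Type} [LieRing 𝔤] [LieAlgebra ℝ 𝔤]
    [FiniteDimensional ℝ 𝔤] [TopologicalSpace 𝔤] [IsTopologicalAddGroup 𝔤] [ContinuousSMul ℝ 𝔤]
    [T2Space 𝔤] {μ : Measure X} {E : 𝔤 → X → X} (h : GAct μ E) {S : X → X}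
    (hS : Measurable S) {V : 𝔤} (hV : Same μ S (E V)) (m : ℕ) :
    Same μ (S^[m]) (E ((m : ℝ) • V)) := by
  induction m with
  | zero =>
    simp only [Function.iterate_zero, Nat.cast_zero, zero_smul]
    exact h.zero.symm
  | succ m ih =>
    rw [Function.iterate_succ']
    have h1 : Same μ (S ∘ S^[m]) (S ∘ E ((m : ℝ) • V)) := ih.left hS
    have h2 : Same μ (S ∘ E ((m : ℝ) • V)) (E V ∘ E ((m : ℝ) • V)) := hV.right (h.mp _)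
    have h3 := h.line V 1 m
    rw [one_smul] at h3
    have h4 : (1 + (m : ℝ)) = ((m + 1 : ℕ) : ℝ) := by push_cast; ring
    rw [h4] at h3
    exact (h1.trans h2).trans h3.symm

theorem t_TROT : S_TROT := by
  intro X _ 𝔤 _ _ _ _ _ _ _ μ _ E h
  refine ⟨h.mp, h.zero, h.line, h.conj, h.cont, ?_⟩
  intro Y Z f hf
  obtain ⟨N, e, C, ρ, hρ, hloc⟩ := h.loc
  have hex : ∀ n : ℕ, ∃ V : 𝔤, ‖e ((n : ℝ)⁻¹ • Y)‖ ≤ ρ → ‖e ((n : ℝ)⁻¹ • Z)‖ ≤ ρ →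
      ‖e (V - (n : ℝ)⁻¹ • Y - (n : ℝ)⁻¹ • Z)‖ ≤ C * ‖e ⁅(n : ℝ)⁻¹ • Y, (n : ℝ)⁻¹ • Z⁆‖ ∧
        Same μ (E ((n : ℝ)⁻¹ • Y) ∘ E ((n : ℝ)⁻¹ • Z)) (E V) := by
    intro n
    by_cases h1 : ‖e ((n : ℝ)⁻¹ • Y)‖ ≤ ρ ∧ ‖e ((n : ℝ)⁻¹ • Z)‖ ≤ ρ
    · obtain ⟨V, hV⟩ := hloc _ _ h1.1 h1.2
      exact ⟨V, fun _ _ => hV⟩
    · exact ⟨0, fun a b => absurd ⟨a, b⟩ h1⟩
  choose V hV using hex
  have hinv : Tendsto (fun n : ℕ => ((n : ℝ))⁻¹) atTop (𝓝 0) := tendsto_inv_atTop_nhds_zero_nat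
  have hsmall : ∀ W : 𝔤, ∀ᶠ n : ℕ in atTop, ‖e ((n : ℝ)⁻¹ • W)‖ ≤ ρ := by
    intro W
    have h1 : Tendsto (fun n : ℕ => ‖e ((n : ℝ)⁻¹ • W)‖) atTop (𝓝 0) := by
      have h2 : Tendsto (fun n : ℕ => ((n : ℝ))⁻¹ * ‖e W‖) atTop (𝓝 (0 * ‖e W‖)) :=
        hinv.mul_const _
      rw [zero_mul] at h2
      refine h2.congr (fun n => ?_)
      rw [map_smul, norm_smul, Real.norm_of_nonneg (by positivity)]
    exact (h1.eventually (gt_mem_nhds hρ)).mono (fun n hn => hn.le)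
  have hlim : Tendsto (fun n : ℕ => (n : ℝ) • V n) atTop (𝓝 (Y + Z)) := by
    have h1 : Tendsto (fun n : ℕ => e ((n : ℝ) • V n)) atTop (𝓝 (e (Y + Z))) := by
      rw [tendsto_iff_norm_sub_tendsto_zero]
      have h2 : Tendsto (fun n : ℕ => ((n : ℝ))⁻¹ * (C * ‖e ⁅Y, Z⁆‖)) atTop
          (𝓝 (0 * (C * ‖e ⁅Y, Z⁆‖))) := hinv.mul_const _
      rw [zero_mul] at h2
      refine squeeze_zero' (Eventually.of_forall (fun n => norm_nonneg _)) ?_ h2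
      filter_upwards [hsmall Y, hsmall Z, eventually_gt_atTop 0] with n hY hZ hn
      obtain ⟨h3, -⟩ := hV n hY hZ
      have hn0 : (n : ℝ) ≠ 0 := by exact_mod_cast hn.ne'
      have e1 : e ((n : ℝ) • V n) - e (Y + Z) =
          (n : ℝ) • e (V n - (n : ℝ)⁻¹ • Y - (n : ℝ)⁻¹ • Z) := by
        rw [← map_sub, ← map_smul]
        congr 1
        rw [smul_sub, smul_sub, smul_smul, smul_smul, mul_inv_cancel₀ hn0, one_smul, one_smul]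
        abel
      have e2 : ‖e ⁅(n : ℝ)⁻¹ • Y, (n : ℝ)⁻¹ • Z⁆‖ = (n : ℝ)⁻¹ * ((n : ℝ)⁻¹ * ‖e ⁅Y, Z⁆‖) := by
        rw [smul_lie, lie_smul, map_smul, map_smul, norm_smul, norm_smul,
          Real.norm_of_nonneg (by positivity)]
      rw [e1, norm_smul, Real.norm_of_nonneg (Nat.cast_nonneg n)]
      rw [e2] at h3
      calc (n : ℝ) * ‖e (V n - (n : ℝ)⁻¹ • Y - (n : ℝ)⁻¹ • Z)‖
          ≤ (n : ℝ) * (C * ((n : ℝ)⁻¹ * ((n : ℝ)⁻¹ * ‖e ⁅Y, Z⁆‖))) :=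
            mul_le_mul_of_nonneg_left h3 (Nat.cast_nonneg n)
        _ = ((n : ℝ) * (n : ℝ)⁻¹) * ((n : ℝ)⁻¹ * (C * ‖e ⁅Y, Z⁆‖)) := by ring
        _ = (n : ℝ)⁻¹ * (C * ‖e ⁅Y, Z⁆‖) := by rw [mul_inv_cancel₀ hn0, one_mul]
    have h2 := (e.symm.continuous.tendsto (e (Y + Z))).comp h1
    simp only [ContinuousLinearEquiv.symm_apply_apply] at h2
    refine h2.congr (fun n => ?_)
    simp [Function.comp]
  have hfin := (h.cont f hf (Y + Z)).comp hlim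
  refine hfin.congr' ?_
  filter_upwards [hsmall Y, hsmall Z] with n hY hZ
  obtain ⟨-, hs⟩ := hV n hY hZ
  have hm : Measurable (E ((n : ℝ)⁻¹ • Y) ∘ E ((n : ℝ)⁻¹ • Z)) :=
    (h.mp _).measurable.comp (h.mp _).measurable
  have h1 := (iter_same h hm hs n).fn hf.meas
  refine integral_congr_ae ?_
  filter_upwards [h1] with p hp
  rw [hp]

end Pool.Agent.W356.LX
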